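import Pool.Agent.LebHex.Final

/-! # Lebesgue's universal covering problem: covers inside Pal's hexagon have area at least `0.8441` -/

open MeasureTheory

namespace Pool.Agent.Results.MP_7dc3c9_co.HexagonCovers

/-- The Euclidean plane. -/
abbrev Plane : Type := EuclideanSpace ℝ (Fin 2)

/-- The orientation-preserving rigid motion: rotation by `θ`, then translation by `a`. -/
noncomputable def motion (θ : ℝ) (a : Plane) (x : Plane) : Plane :=
  !₂[Real.cos θ * x 0 - Real.sin θ * x 1 + a 0, Real.sin θ * x 0 + Real.cos θ * x 1 + a 1]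

/-- `R` is a displacement cover: it contains the image of every set of diameter exactly `1` under
some orientation-preserving rigid motion. -/
def IsDisplacementCover (R : Set Plane) : Prop :=
  ∀ S : Set Plane, Metric.diam S = 1 → ∃ (θ : ℝ) (a : Plane), ∀ x ∈ S, motion θ a x ∈ R

/-- Pal's cover: the regular hexagon with inradius `1/2`, centre `0` and two horizontal sides. -/
def hexagon : Set Plane :=
  {x | |x 1| ≤ 1 / 2 ∧ |Real.sqrt 3 / 2 * x 0 + 1 / 2 * x 1| ≤ 1 / 2 ∧
    |Real.sqrt 3 / 2 * x 0 - 1 / 2 * x 1| ≤ 1 / 2}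

/-- Every convex displacement cover that lies, in some position, inside the regular hexagon with
inradius `1/2` has area at least `0.8441`. -/
theorem result (R : Set Plane) (hR : IsDisplacementCover R) (hc : Convex ℝ R)
    (hh : ∃ (θ : ℝ) (a : Plane), ∀ x ∈ R, motion θ a x ∈ hexagon) :
    ENNReal.ofReal (8441 / 10000) ≤ volume R := by
  obtain ⟨θ, a, h⟩ := hh
  exact PoolHex.main_bound hR hc h

end Pool.Agent.Results.MP_7dc3c9_co.HexagonCovers
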