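import Pool.Agent.Leb.Final

/-! # Lebesgue's universal covering problem: `μ ≥ 0.836` -/

open MeasureTheory

namespace Pool.Agent.Results.MP_7dc3c9_co.LowerBound836

/-- The Euclidean plane. -/
abbrev Plane : Type := EuclideanSpace ℝ (Fin 2)

/-- The orientation-preserving rigid motion: rotation by `θ`, then translation by `a`. -/
noncomputable def motion (θ : ℝ) (a : Plane) (x : Plane) : Plane :=
  !₂[Real.cos θ * x 0 - Real.sin θ * x 1 + a 0, Real.sin θ * x 0 + Real.cos θ * x 1 + a 1]

/-- `R` is a displacement cover: it contains the image of every set of diameter exactly `1` under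
some orientation-preserving rigid motion. -/
def IsDisplacementCover (R : Set Plane) : Prop :=
  ∀ S : Set Plane, Metric.diam S = 1 → ∃ (θ : ℝ) (a : Plane), ∀ x ∈ S, motion θ a x ∈ R

/-- Lebesgue's constant: the infimum of the areas of closed convex displacement covers. -/
noncomputable def mu : ENNReal :=
  sInf {A | ∃ R : Set Plane, Convex ℝ R ∧ IsClosed R ∧ IsDisplacementCover R ∧ A = volume R}

/-- the isometry `ℂ ≃ ℝ²` -/
noncomputable def iso : ℂ ≃ₗᵢ[ℝ] Plane := Complex.orthonormalBasisOneI.repr

theorem iso_0 (z : ℂ) : iso z 0 = z.re := by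
  simp [iso, Complex.orthonormalBasisOneI]

theorem iso_1 (z : ℂ) : iso z 1 = z.im := by
  simp [iso, Complex.orthonormalBasisOneI]

theorem motion_iso (θ : ℝ) (a : Plane) (z : ℂ) :
    motion θ a (iso z) = iso (Complex.exp (θ * Complex.I) * z + iso.symm a) := by
  have ha : a = iso (iso.symm a) := (iso.apply_symm_apply a).symm
  generalize iso.symm a = c at ha
  subst ha
  ext i
  fin_cases i
  · simp [motion, iso_0, iso_1, Complex.exp_ofReal_mul_I_re, Complex.exp_ofReal_mul_I_im]
  · simp [motion, iso_0, iso_1, Complex.exp_ofReal_mul_I_re, Complex.exp_ofReal_mul_I_im]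
    ring

theorem cover_iso {R : Set Plane} (h : IsDisplacementCover R) :
    PoolLeb.IsDisplacementCover (iso ⁻¹' R) := by
  intro S hS
  have h1 : Metric.diam (iso '' S) = 1 := by
    rw [iso.isometry.diam_image, hS]
  obtain ⟨θ, a, hm⟩ := h (iso '' S) h1
  refine ⟨Complex.exp (θ * Complex.I), iso.symm a, Complex.norm_exp_ofReal_mul_I θ, ?_⟩
  intro z hz
  have := hm (iso z) ⟨z, hz, rfl⟩
  rw [motion_iso] at this
  exact this

/-- **Lebesgue's universal covering problem**: `μ ≥ 0.836`. -/
theorem result : ENNReal.ofReal (836 / 1000) ≤ mu := by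
  refine le_sInf ?_
  rintro A ⟨R, hc, hR, hcov, rfl⟩
  have h1 : Convex ℝ (iso ⁻¹' R) := hc.is_linear_preimage iso.toLinearEquiv.toLinearMap.isLinear
  have h2 : IsClosed (iso ⁻¹' R) := hR.preimage iso.continuous
  have h3 := PoolLeb.main_bound (cover_iso hcov) h1 h2
  have h4 : volume (iso ⁻¹' R) = volume R :=
    iso.measurePreserving.measure_preimage hR.measurableSet.nullMeasurableSet
  rwa [h4] at h3

end Pool.Agent.Results.MP_7dc3c9_co.LowerBound836
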