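import Pool.Agent.LebOct.Final

/-! # Lebesgue's universal covering problem: covers inside Pal's octagon have area at least
`0.844137708` -/

open MeasureTheory

namespace Pool.Agent.Results.MP_7dc3c9_co.OctagonCovers

/-- The Euclidean plane. -/
abbrev Plane : Type := EuclideanSpace ℝ (Fin 2)

/-- The orientation-preserving rigid motion: rotation by `θ`, then translation by `a`. -/
noncomputable def motion (θ : ℝ) (a : Plane) (x : Plane) : Plane :=
  !₂[Real.cos θ * x 0 - Real.sin θ * x 1 + a 0, Real.sin θ * x 0 + Real.cos θ * x 1 + a 1]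

/-- `R` is a displacement cover: it contains the image of every set of diameter exactly `1` under
some orientation-preserving rigid motion. -/
def IsDisplacementCover (R : Set Plane) : Prop :=
  ∀ S : Set Plane, Metric.diam S = 1 → ∃ (θ : ℝ) (a : Plane), ∀ x ∈ S, motion θ a x ∈ R

/-- Pal's octagon: the regular hexagon with inradius `1/2`, centre `0` and two horizontal sides,
without the two corners in the directions of 60 and 180 degrees, which are cut off by tangents of the
inscribed circle. -/
def octagon : Set Plane :=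
  {x | |x 1| ≤ 1 / 2 ∧ |Real.sqrt 3 / 2 * x 0 + 1 / 2 * x 1| ≤ 1 / 2 ∧
    |Real.sqrt 3 / 2 * x 0 - 1 / 2 * x 1| ≤ 1 / 2 ∧
    1 / 2 * x 0 + Real.sqrt 3 / 2 * x 1 ≤ 1 / 2 ∧ -x 0 ≤ 1 / 2}

/-- Every convex displacement cover that lies, in some position, inside Pal's octagon has area at
least `0.844137708`. -/
theorem result (R : Set Plane) (hR : IsDisplacementCover R) (hc : Convex ℝ R)
    (ho : ∃ (θ : ℝ) (a : Plane), ∀ x ∈ R, motion θ a x ∈ octagon) :
    ENNReal.ofReal (844137708 / 1000000000) ≤ volume R := by
  obtain ⟨θ, a, h⟩ := ho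
  exact PoolOct.main_bound hR hc h

end Pool.Agent.Results.MP_7dc3c9_co.OctagonCovers
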