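import Pool.Agent.LebSym.SymFinal

/-! # Lebesgue's universal covering problem: covers with a rotational symmetry -/

open MeasureTheory

namespace Pool.Agent.Results.MP_7dc3c9_co.RotationalSymmetry

/-- The Euclidean plane. -/
abbrev Plane : Type := EuclideanSpace ℝ (Fin 2)

/-- The orientation-preserving rigid motion: rotation by `θ`, then translation by `a`. -/
noncomputable def motion (θ : ℝ) (a : Plane) (x : Plane) : Plane :=
  !₂[Real.cos θ * x 0 - Real.sin θ * x 1 + a 0, Real.sin θ * x 0 + Real.cos θ * x 1 + a 1]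

/-- `R` is a displacement cover: it contains the image of every set of diameter exactly `1` under
some orientation-preserving rigid motion. -/
def IsDisplacementCover (R : Set Plane) : Prop :=
  ∀ S : Set Plane, Metric.diam S = 1 → ∃ (θ : ℝ) (a : Plane), ∀ x ∈ S, motion θ a x ∈ R

/-- `R` is a closed convex displacement cover. -/
def IsConvexCover (R : Set Plane) : Prop := IsClosed R ∧ Convex ℝ R ∧ IsDisplacementCover R

/-- Pal's hexagon: the regular hexagon with inradius `1/2`, centre `0` and two vertical sides. -/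
def hexagon : Set Plane :=
  {x | |x 0| ≤ 1 / 2 ∧ |1 / 2 * x 0 + Real.sqrt 3 / 2 * x 1| ≤ 1 / 2 ∧
    |1 / 2 * x 0 - Real.sqrt 3 / 2 * x 1| ≤ 1 / 2}

/-- the isometry `ℂ ≃ ℝ²` -/
noncomputable def iso : ℂ ≃ₗᵢ[ℝ] Plane := Complex.orthonormalBasisOneI.repr

theorem iso_0 (z : ℂ) : iso z 0 = z.re := by
  simp [iso, Complex.orthonormalBasisOneI]

theorem iso_1 (z : ℂ) : iso z 1 = z.im := by
  simp [iso, Complex.orthonormalBasisOneI]

theorem motion_iso (θ : ℝ) (a : Plane) (z : ℂ) :
    motion θ a (iso z) = iso (Complex.exp (θ * Complex.I) * z + iso.symm a) := by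
  have ha : a = iso (iso.symm a) := (iso.apply_symm_apply a).symm
  generalize iso.symm a = c at ha
  subst ha
  ext i
  fin_cases i
  · simp [motion, iso_0, iso_1, Complex.exp_ofReal_mul_I_re, Complex.exp_ofReal_mul_I_im]
  · simp [motion, iso_0, iso_1, Complex.exp_ofReal_mul_I_re, Complex.exp_ofReal_mul_I_im]
    ring

theorem cover_iso {R : Set Plane} (h : IsDisplacementCover R) :
    PoolLeb.IsDisplacementCover (iso ⁻¹' R) := by
  intro S hS
  have h1 : Metric.diam (iso '' S) = 1 := by
    rw [iso.isometry.diam_image, hS]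
  obtain ⟨θ, a, hm⟩ := h (iso '' S) h1
  refine ⟨Complex.exp (θ * Complex.I), iso.symm a, Complex.norm_exp_ofReal_mul_I θ, ?_⟩
  intro z hz
  have := hm (iso z) ⟨z, hz, rfl⟩
  rw [motion_iso] at this
  exact this

theorem unit_exp {w : ℂ} (hw : ‖w‖ = 1) : Complex.exp ((Complex.arg w : ℝ) * Complex.I) = w := by
  have := Complex.norm_mul_exp_arg_mul_I w
  rwa [hw, Complex.ofReal_one, one_mul] at this

theorem iso_cover {R : Set ℂ} (h : PoolLeb.IsDisplacementCover R) :
    IsDisplacementCover (iso.symm ⁻¹' R) := by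
  intro S hS
  have h1 : Metric.diam (iso.symm '' S) = 1 := by
    rw [iso.symm.isometry.diam_image, hS]
  obtain ⟨w, t, hw, hm⟩ := h (iso.symm '' S) h1
  refine ⟨Complex.arg w, iso t, ?_⟩
  intro x hx
  have h2 := hm (iso.symm x) ⟨x, hx, rfl⟩
  obtain ⟨z, rfl⟩ := iso.surjective x
  rw [Set.mem_preimage, motion_iso, unit_exp hw, iso.symm_apply_apply, iso.symm_apply_apply]
  rw [iso.symm_apply_apply] at h2
  exact h2

theorem vol_iso {R : Set Plane} (hR : IsClosed R) : volume (iso ⁻¹' R) = volume R :=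
  iso.measurePreserving.measure_preimage hR.measurableSet.nullMeasurableSet

theorem vol_symm {R : Set ℂ} (hR : IsClosed R) : volume (iso.symm ⁻¹' R) = volume R :=
  iso.symm.measurePreserving.measure_preimage hR.measurableSet.nullMeasurableSet

/-- transfer of a closed convex displacement cover of `ℂ` -/
theorem convexCover_of {R : Set ℂ} (h1 : IsClosed R) (h2 : Convex ℝ R)
    (h3 : PoolLeb.IsDisplacementCover R) : IsConvexCover (iso.symm ⁻¹' R) :=
  ⟨h1.preimage iso.symm.continuous, h2.is_linear_preimage iso.symm.toLinearEquiv.toLinearMap.isLinear,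
    iso_cover h3⟩

theorem conv_iso {R : Set Plane} (hc : Convex ℝ R) : Convex ℝ (iso ⁻¹' R) :=
  hc.is_linear_preimage iso.toLinearEquiv.toLinearMap.isLinear

theorem hexagon_eq : hexagon = iso.symm ⁻¹' PoolLebSym.Hex := by
  ext x
  obtain ⟨z, rfl⟩ := iso.surjective x
  rw [Set.mem_preimage, iso.symm_apply_apply]
  unfold hexagon PoolLebSym.Hex
  rw [Set.mem_ofPred_eq, Set.mem_ofPred_eq, iso_0, iso_1]
  have e1 : 1 / 2 * z.re + √3 / 2 * z.im = z.re / 2 + √3 / 2 * z.im := by ring
  have e2 : 1 / 2 * z.re - √3 / 2 * z.im = -(-(z.re / 2) + √3 / 2 * z.im) := by ring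
  rw [e1, e2, abs_neg]

theorem motion_back {R : Set Plane} {θ : ℝ} {a : Plane} (h : ∀ x ∈ R, motion θ a x ∈ R) :
    ∀ z ∈ iso ⁻¹' R, Complex.exp (θ * Complex.I) * z + iso.symm a ∈ iso ⁻¹' R := by
  intro z hz
  have := h _ hz
  rw [motion_iso] at this
  exact this

theorem motion_three {θ : ℝ} {a : Plane} (h : ∃ x, motion θ a (motion θ a (motion θ a x)) ≠ x) :
    ∃ z : ℂ, Complex.exp (θ * Complex.I) * (Complex.exp (θ * Complex.I) *
      (Complex.exp (θ * Complex.I) * z + iso.symm a) + iso.symm a) + iso.symm a ≠ z := by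
  obtain ⟨x, hx⟩ := h
  obtain ⟨z, rfl⟩ := iso.surjective x
  refine ⟨z, fun h => hx ?_⟩
  rw [motion_iso, motion_iso, motion_iso, h]

theorem exp_third : Complex.exp (((2 * Real.pi / 3 : ℝ) : ℂ) * Complex.I) = ⟨-(1 / 2), √3 / 2⟩ := by
  have e : 2 * Real.pi / 3 = Real.pi - Real.pi / 3 := by ring
  apply Complex.ext
  · rw [Complex.exp_ofReal_mul_I_re, e, Real.cos_pi_sub, Real.cos_pi_div_three]
  · rw [Complex.exp_ofReal_mul_I_im, e, Real.sin_pi_sub, Real.sin_pi_div_three]

theorem exp_sixth : Complex.exp (((Real.pi / 3 : ℝ) : ℂ) * Complex.I) = ⟨1 / 2, √3 / 2⟩ := by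
  apply Complex.ext
  · rw [Complex.exp_ofReal_mul_I_re, Real.cos_pi_div_three]
  · rw [Complex.exp_ofReal_mul_I_im, Real.sin_pi_div_three]

theorem hex_sixth {z : ℂ} (hz : z ∈ PoolLebSym.Hex) : (⟨1 / 2, √3 / 2⟩ : ℂ) * z ∈ PoolLebSym.Hex := by
  have e3 : √3 * √3 = 3 := Real.mul_self_sqrt (by norm_num)
  have r : √3 * (√3 * z.re) = 3 * z.re := by linear_combination z.re * e3
  have r' : √3 * (√3 * z.im) = 3 * z.im := by linear_combination z.im * e3
  obtain ⟨z1, z2, z3⟩ := hz
  rw [abs_le] at z1 z2 z3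
  refine ⟨?_, ?_, ?_⟩ <;> simp only [Complex.mul_re, Complex.mul_im] <;> rw [abs_le] <;>
    constructor <;> linarith

/-- Let `R` be a closed convex displacement cover and `f = motion θ a` an orientation-preserving
rigid motion that maps `R` into `R`.
(1) If `f` is not the identity, then the area of `R` is at least `0.85`.
(2) If `f ∘ f ∘ f` is not the identity, then the area of `R` is at least `√3/2`, and if it is at
most `√3/2`, then `R` is congruent to Pal's hexagon.
(3) Pal's hexagon is a closed convex displacement cover of area `√3/2`, invariant under the rotation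
by `π/3`.
(4) Some closed convex displacement cover invariant under the rotation by `2π/3` has area
`(15 √7 - 7 √3) / 32 < 0.8614`. -/
theorem result :
    (∀ (R : Set Plane) (θ : ℝ) (a : Plane), IsConvexCover R → (∀ x ∈ R, motion θ a x ∈ R) →
      (∃ x, motion θ a x ≠ x) → ENNReal.ofReal (85 / 100) ≤ volume R) ∧
    (∀ (R : Set Plane) (θ : ℝ) (a : Plane), IsConvexCover R → (∀ x ∈ R, motion θ a x ∈ R) →
      (∃ x, motion θ a (motion θ a (motion θ a x)) ≠ x) →
        ENNReal.ofReal (Real.sqrt 3 / 2) ≤ volume R ∧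
        (volume R ≤ ENNReal.ofReal (Real.sqrt 3 / 2) →
          ∃ (η : ℝ) (b : Plane), R = motion η b '' hexagon)) ∧
    (IsConvexCover hexagon ∧ volume hexagon = ENNReal.ofReal (Real.sqrt 3 / 2) ∧
      ∀ x ∈ hexagon, motion (Real.pi / 3) 0 x ∈ hexagon) ∧
    (∃ R : Set Plane, IsConvexCover R ∧ (∀ x ∈ R, motion (2 * Real.pi / 3) 0 x ∈ R) ∧
      volume R = ENNReal.ofReal ((15 * Real.sqrt 7 - 7 * Real.sqrt 3) / 32) ∧
      volume R < ENNReal.ofReal (8614 / 10000)) := by
  refine ⟨?_, ?_, ⟨?_, ?_, ?_⟩, ?_⟩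
  · rintro R θ a ⟨hR, hc, hcov⟩ hi ⟨x, hx⟩
    have h1 := PoolLebSym.motion_bound (cover_iso hcov) (conv_iso hc)
      (hR.preimage iso.continuous) (Complex.norm_exp_ofReal_mul_I θ) (a := iso.symm a) (by
        obtain ⟨z, rfl⟩ := iso.surjective x
        refine ⟨z, fun h => hx ?_⟩
        rw [motion_iso, h]) (motion_back hi)
    rwa [vol_iso hR] at h1
  · rintro R θ a ⟨hR, hc, hcov⟩ hi hne
    constructor
    · have h1 := PoolLebSym.motion_other (cover_iso hcov) (conv_iso hc)
        (hR.preimage iso.continuous) (Complex.norm_exp_ofReal_mul_I θ) (a := iso.symm a)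
        (motion_three hne) (motion_back hi)
      rwa [vol_iso hR] at h1
    · intro hv
      rw [← vol_iso hR] at hv
      obtain ⟨u, c, hu, e⟩ := PoolLebSym.motion_unique (cover_iso hcov) (conv_iso hc)
        (hR.preimage iso.continuous) (Complex.norm_exp_ofReal_mul_I θ) (a := iso.symm a)
        (motion_three hne) (motion_back hi) hv
      refine ⟨Complex.arg u, iso c, ?_⟩
      ext x
      obtain ⟨z, rfl⟩ := iso.surjective x
      have e' := Set.ext_iff.1 e z
      rw [Set.mem_preimage] at e'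
      rw [e', hexagon_eq]
      constructor
      · rintro ⟨y, hy, rfl⟩
        refine ⟨iso y, ?_, ?_⟩
        · rw [Set.mem_preimage, iso.symm_apply_apply]
          exact hy
        · rw [motion_iso, unit_exp hu, iso.symm_apply_apply]
      · rintro ⟨y, hy, hyz⟩
        obtain ⟨v, rfl⟩ := iso.surjective y
        rw [Set.mem_preimage, iso.symm_apply_apply] at hy
        rw [motion_iso, unit_exp hu, iso.symm_apply_apply] at hyz
        exact ⟨v, hy, iso.injective hyz⟩
  · rw [hexagon_eq]
    exact convexCover_of PoolLebSym.hex_closed PoolLebSym.hex_convex PoolLebSym.hex_cover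
  · rw [hexagon_eq, vol_symm PoolLebSym.hex_closed, PoolLebSym.hex_volume]
  · intro x hx
    rw [hexagon_eq] at hx ⊢
    obtain ⟨z, rfl⟩ := iso.surjective x
    rw [Set.mem_preimage, iso.symm_apply_apply] at hx
    rw [Set.mem_preimage, motion_iso, iso.symm_apply_apply, exp_sixth, map_zero, add_zero]
    exact hex_sixth hx
  · refine ⟨iso.symm ⁻¹' PoolLebSym.Cut, convexCover_of PoolLebSym.cut_closed
      PoolLebSym.cut_convex PoolLebSym.cut_cover, ?_, ?_, ?_⟩
    · intro x hx
      obtain ⟨z, rfl⟩ := iso.surjective x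
      rw [Set.mem_preimage, iso.symm_apply_apply] at hx
      rw [Set.mem_preimage, motion_iso, iso.symm_apply_apply, exp_third, map_zero, add_zero]
      exact PoolLebSym.cut_inv hx
    · rw [vol_symm PoolLebSym.cut_closed, PoolLebSym.cut_volume]
    · rw [vol_symm PoolLebSym.cut_closed, PoolLebSym.cut_volume]
      apply (ENNReal.ofReal_lt_ofReal_iff (by norm_num)).2
      have h7 : √7 < 2.64576 := (Real.sqrt_lt' (by norm_num)).2 (by norm_num)
      have h3 : 1.73205 < √3 := Real.lt_sqrt_of_sq_lt (by norm_num)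
      linarith

end Pool.Agent.Results.MP_7dc3c9_co.RotationalSymmetry
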